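import Pool.Agent.Helper11.EA3.Defs3
import Pool.Agent.Helper5.RM.CMP
import Pool.Agent.Helper5.RM.DL

/-!
# Block EA3-V2a: the sums `Psi` for small coefficients

`c2 Lam lo hi α α' (g a) (g b)` is a sum of `e (l g β)` with `β = a α + b α'` over an interval of `l` in `Lam`: `completion`
with `Y' = N / H / max a b ≥ B` and `γ = 113 LL / B`, by `dl` at the far point `β`:
`Y' + 2 ∑_{j < H} mn Y' (j β) ≤ Y' + 16 LL (N/D + H + Y' + H Y'/D) ≤ 113 LL H Y' / B`, since `N ≤ 4 H Y' A0`, `D ≥ A0 B`.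
-/

set_option autoImplicit false

namespace Pool.Agent.Helper51.EA

open Finset Pool.Agent.Helper5.RM Pool.Agent.Helper5.RS

theorem psi_small : ∃ C : ℝ, 1 ≤ C ∧ ∀ (N : ℕ) (α α' D : ℝ) (A0 B H : ℕ) (Lam : Finset ℕ) (lo hi : ℕ → ℕ),
    D ≤ N → Far2 N A0 α α' D → 128 * LL N ≤ B → B ≤ A0 → (A0 : ℝ) * B ≤ D → B ≤ H → B * A0 * H ≤ N →
    (∀ l ∈ Lam, H ≤ l ∧ l < 2 * H) → ∀ a b : ℕ, 1 ≤ a → a ≤ A0 → 1 ≤ b → b ≤ A0 →
    ∑ g ∈ Icc 1 (N / H / max a b), ‖c2 Lam lo hi α α' (g * a) (g * b)‖ ^ 2 ≤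
      C * LL N ^ 3 / B * ((H : ℝ) ^ 2 * ((N / H : ℕ) / (max a b : ℕ))) := by
  refine ⟨1017, by norm_num, ?_⟩
  intro N α α' D A0 B H Lam lo hi hDN hF hB hBA hAD hBH hN hLam a b ha haA hb hbA
  have hA1 : 1 ≤ A0 := ha.trans haA
  have hB0 : 0 < B := by
    rcases Nat.eq_zero_or_pos B with h | h
    · exfalso
      subst h
      have h1 : (0 : ℝ) ≤ Real.log N := Real.log_natCast_nonneg N
      unfold LL at hB
      push_cast at hB
      linarith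
    · exact h
  have hH0 : 0 < H := hB0.trans_le hBH
  have hBr : (0 : ℝ) < B := by exact_mod_cast hB0
  have hHr : (0 : ℝ) < H := by exact_mod_cast hH0
  have hAr : (1 : ℝ) ≤ A0 := by exact_mod_cast hA1
  have hL1 : 1 ≤ LL N := by
    have h1 : (0 : ℝ) ≤ Real.log N := Real.log_natCast_nonneg N
    unfold LL
    linarith
  have hB128 : (128 : ℝ) ≤ B := by linarith
  have hBD : (B : ℝ) ≤ D := by nlinarith
  have hD2 : 2 ≤ D := by linarith
  have hD0 : 0 < D := by linarith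
  obtain ⟨M, hM⟩ : ∃ M : ℕ, M = max a b := ⟨_, rfl⟩
  have hM1 : 1 ≤ M := by rw [hM]; exact ha.trans (le_max_left _ _)
  have hMA : M ≤ A0 := by rw [hM]; exact max_le haA hbA
  obtain ⟨Y, hY⟩ : ∃ Y : ℕ, Y = N / H / M := ⟨_, rfl⟩
  rw [← hM, ← hY]
  -- lower bound of `Y`
  have hYB : B ≤ Y := by
    rw [hY, Nat.le_div_iff_mul_le hM1, Nat.le_div_iff_mul_le hH0]
    calc B * M * H ≤ B * A0 * H := Nat.mul_le_mul_right _ (Nat.mul_le_mul_left _ hMA)
      _ ≤ N := hN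
  have hY0 : 0 < Y := hB0.trans_le hYB
  have hYr : (0 : ℝ) < Y := by exact_mod_cast hY0
  have hNY : N ≤ 4 * (H * Y * A0) := by
    have h1 : N / H < (Y + 1) * M := by
      rw [hY]
      exact Nat.lt_mul_of_div_lt (Nat.lt_succ_self _) hM1
    have h2 : N < (N / H + 1) * H := Nat.lt_mul_of_div_lt (Nat.lt_succ_self _) hH0
    have h3 : N / H + 1 ≤ (Y + 1) * M := h1
    have h4 : (Y + 1) * M ≤ 2 * Y * A0 := Nat.mul_le_mul (by omega) hMA
    calc N ≤ (N / H + 1) * H := h2.le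
      _ ≤ (2 * Y * A0) * H := Nat.mul_le_mul_right _ (h3.trans h4)
      _ ≤ 4 * (H * Y * A0) := by nlinarith [Nat.zero_le (H * Y * A0)]
  have hNYr : (N : ℝ) ≤ 4 * (H * Y * A0) := by exact_mod_cast hNY
  -- the frequency
  obtain ⟨β, hβ⟩ : ∃ β : ℝ, β = a * α + b * α' := ⟨_, rfl⟩
  have hFar : Far N β D := by rw [hβ]; exact hF a b ha haA hb hbA
  -- the sum of `mn`
  have hsum := dl N β D hD2 hDN hFar Y hYr.le (H - 1)
  have hI : Finset.Icc 1 (H - 1) = Finset.Ico 1 H := by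
    ext j
    simp only [Finset.mem_Icc, Finset.mem_Ico]
    omega
  rw [hI] at hsum
  have hx0 : 0 ≤ (H : ℝ) * Y / B := by positivity
  have hbr : (N : ℝ) / D + ((H - 1 : ℕ) : ℝ) + Y + ((H - 1 : ℕ) : ℝ) * Y / D ≤ 7 * (H * Y / B) := by
    have e1 : (N : ℝ) / D ≤ 4 * (H * Y / B) := by
      rw [div_le_iff₀ hD0]
      calc (N : ℝ) ≤ 4 * (H * Y * A0) := hNYr
        _ = 4 * (H * Y / B) * (A0 * B) := by field_simp
        _ ≤ 4 * (H * Y / B) * D := mul_le_mul_of_nonneg_left hAD (by positivity)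
    have hH1 : ((H - 1 : ℕ) : ℝ) ≤ H := by exact_mod_cast Nat.sub_le H 1
    have hH10 : (0 : ℝ) ≤ ((H - 1 : ℕ) : ℝ) := Nat.cast_nonneg _
    have hYBr : (B : ℝ) ≤ Y := by exact_mod_cast hYB
    have hHBr : (B : ℝ) ≤ H := by exact_mod_cast hBH
    have e2 : ((H - 1 : ℕ) : ℝ) ≤ H * Y / B := by
      refine hH1.trans ?_
      rw [le_div_iff₀ hBr]
      exact mul_le_mul_of_nonneg_left hYBr hHr.le
    have e3 : (Y : ℝ) ≤ H * Y / B := by
      rw [le_div_iff₀ hBr, mul_comm]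
      exact mul_le_mul_of_nonneg_right hHBr hYr.le
    have e4 : ((H - 1 : ℕ) : ℝ) * Y / D ≤ H * Y / B := by
      refine div_le_div₀ (by positivity) (mul_le_mul_of_nonneg_right hH1 hYr.le) hBr hBD
    linarith
  have hγ : (Y : ℝ) + 2 * ∑ j ∈ Finset.Ico 1 H, mn Y (j * β) ≤ H * Y * (113 * LL N / B) := by
    have e3 : (Y : ℝ) ≤ H * Y / B := by
      have hHBr : (B : ℝ) ≤ H := by exact_mod_cast hBH
      rw [le_div_iff₀ hBr, mul_comm]
      exact mul_le_mul_of_nonneg_right hHBr hYr.le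
    have e5 : ∑ j ∈ Finset.Ico 1 H, mn Y (j * β) ≤ 8 * LL N * (7 * (H * Y / B)) :=
      hsum.trans (mul_le_mul_of_nonneg_left hbr (by positivity))
    have e6 : (H : ℝ) * Y / B ≤ LL N * (H * Y / B) := by nlinarith
    calc (Y : ℝ) + 2 * ∑ j ∈ Finset.Ico 1 H, mn Y (j * β) ≤
          LL N * (H * Y / B) + 2 * (8 * LL N * (7 * (H * Y / B))) := by linarith
      _ = H * Y * (113 * LL N / B) := by ring
  have hlog : 1 + Real.log H ≤ LL N := by
    unfold LL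
    have h1 : H ≤ N := by
      calc H = 1 * 1 * H := by ring
        _ ≤ B * A0 * H := Nat.mul_le_mul_right _ (Nat.mul_le_mul hB0 hA1)
        _ ≤ N := hN
    have h2 : Real.log H ≤ Real.log N := Real.log_le_log hHr (by exact_mod_cast h1)
    linarith
  obtain ⟨Gq, g0, -, g2, g3⟩ := completion Lam H Y hH0 hLam β (113 * LL N / B) (LL N) hlog hγ
  have hle : ∀ g ∈ Icc 1 Y, ‖c2 Lam lo hi α α' (g * a) (g * b)‖ ^ 2 ≤ Gq g := by
    intro g _
    refine le_trans (le_of_eq ?_) (g3 g (max (lo (g * a)) (lo (g * b))) (min (hi (g * a)) (hi (g * b))))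
    unfold c2
    congr 2
    refine Finset.sum_congr rfl fun l _ => ?_
    congr 1
    rw [hβ]
    push_cast
    ring
  have hYM : (Y : ℝ) ≤ ((N / H : ℕ) : ℝ) / (M : ℕ) := by
    rw [hY]
    exact Nat.cast_div_le
  calc ∑ g ∈ Icc 1 Y, ‖c2 Lam lo hi α α' (g * a) (g * b)‖ ^ 2 ≤ ∑ g ∈ Icc 1 Y, Gq g := Finset.sum_le_sum hle
    _ ≤ 9 * LL N ^ 2 * H ^ 2 * Y * (113 * LL N / B) := g2
    _ = 1017 * LL N ^ 3 / B * ((H : ℝ) ^ 2 * Y) := by ring
    _ ≤ 1017 * LL N ^ 3 / B * ((H : ℝ) ^ 2 * (((N / H : ℕ) : ℝ) / (M : ℕ))) :=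
      mul_le_mul_of_nonneg_left (mul_le_mul_of_nonneg_left hYM (by positivity)) (by positivity)

end Pool.Agent.Helper51.EA
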